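import Pool.Agent.W759.FD.Defs

namespace Pool.Agent.W371.FD

open MeasureTheory ProbabilityTheory Set Filter
open Pool.Agent.W759.FD
open scoped Topology

universe u

theorem dct2 {Z : Type*} [MeasurableSpace Z] (ρ : Measure Z) [IsProbabilityMeasure ρ]
    (f : ℕ → Z → ℝ) (C : ℝ) (hm : ∀ c, Measurable (f c)) (hb : ∀ c z, |f c z| ≤ C)
    (h0 : ∀ z, Tendsto (fun c => f c z) atTop (𝓝 0)) :
    Tendsto (fun c => ∫ z, f c z ∂ρ) atTop (𝓝 0) := by
  have h := tendsto_integral_of_dominated_convergence (μ := ρ) (F := f) (f := fun _ => (0 : ℝ))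
    (fun _ => C)
    (fun c => (hm c).aestronglyMeasurable) (integrable_const C)
    (fun c => Eventually.of_forall (fun z => by rw [Real.norm_eq_abs]; exact hb c z))
    (Eventually.of_forall h0)
  simpa using h

theorem int_bdd {Z : Type*} [MeasurableSpace Z] (ρ : Measure Z) [IsProbabilityMeasure ρ]
    (f : Z → ℝ) (C : ℝ) (hm : Measurable f) (hb : ∀ z, |f z| ≤ C) : Integrable f ρ :=
  Integrable.of_bound hm.aestronglyMeasurable C (Eventually.of_forall hb)

theorem abs_int_le {Z : Type*} [MeasurableSpace Z] (ρ : Measure Z) [IsProbabilityMeasure ρ]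
    (f : Z → ℝ) (C : ℝ) (hb : ∀ z, |f z| ≤ C) : |∫ z, f z ∂ρ| ≤ C := by
  have := norm_integral_le_of_norm_le_const (μ := ρ) (f := f) (C := C) (Eventually.of_forall hb)
  simpa using this

theorem abs_mul_le1 {a b : ℝ} (ha : |a| ≤ 1) (hb : |b| ≤ 1) : |a * b| ≤ 1 := by
  rw [abs_mul]
  nlinarith [abs_nonneg a, abs_nonneg b]

theorem abs_sign {x : ℝ} (h : IsSign x) : |x| ≤ 1 := by
  rcases h with h | h <;> simp [h]

theorem abs_unit {x : ℝ} (h : 0 ≤ x ∧ x ≤ 1) : |x| ≤ 1 := by
  rw [abs_le]; constructor <;> linarith [h.1, h.2]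

theorem tlem {R : Type u} [MeasurableSpace R] (ν : Measure R) [IsProbabilityMeasure ν]
    (κ' : R → ℝ) (η : ℕ → R → ℝ) (hκ : Measurable κ') (hκ1 : ∀ r, 0 ≤ κ' r ∧ κ' r ≤ 1)
    (hη : ∀ c, Measurable (η c)) (hη1 : ∀ c r, IsSign (η c r))
    (hT : ∀ w : R → ℝ, Measurable w → (∀ r, |w r| ≤ 1) →
      Tendsto (fun c => ∫ r, w r * κ' r * η c r ∂ν) atTop (𝓝 0))
    (h : R × R → ℝ) (hh : Measurable h) (hh1 : ∀ q, |h q| ≤ 1)
    (s : ℕ → R → ℝ) (hs : ∀ c, Measurable (s c)) (hs1 : ∀ c r, |s c r| ≤ 1) :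
    Tendsto (fun c => ∫ q, h q * κ' q.1 * η c q.1 * s c q.2 ∂(ν.prod ν)) atTop (𝓝 0) := by
  have hmeas : ∀ c, Measurable (fun q : R × R => h q * κ' q.1 * η c q.1) := fun c =>
    (hh.mul (hκ.comp measurable_fst)).mul ((hη c).comp measurable_fst)
  have hbd : ∀ c q, |h q * κ' q.1 * η c q.1| ≤ 1 := fun c q =>
    abs_mul_le1 (abs_mul_le1 (hh1 q) (abs_unit (hκ1 q.1))) (abs_sign (hη1 c q.1))
  have e : ∀ c, ∫ q, h q * κ' q.1 * η c q.1 * s c q.2 ∂(ν.prod ν) =
      ∫ r', (∫ r, h (r, r') * κ' r * η c r ∂ν) * s c r' ∂ν := by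
    intro c
    rw [integral_prod_symm]
    · refine integral_congr_ae (Eventually.of_forall fun r' => ?_)
      simp only
      rw [integral_mul_const]
    · exact int_bdd _ _ 1 ((hmeas c).mul ((hs c).comp measurable_snd))
        (fun q => abs_mul_le1 (hbd c q) (hs1 c q.2))
  simp only [e]
  refine dct2 ν _ 1 (fun c => ?_) (fun c r' => ?_) (fun r' => ?_)
  · refine Measurable.mul ?_ (hs c)
    have hsm : StronglyMeasurable (Function.uncurry
        (fun (r' r : R) => h (r, r') * κ' r * η c r)) := by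
      apply Measurable.stronglyMeasurable
      exact (hmeas c).comp measurable_swap
    exact hsm.integral_prod_right.measurable
  · refine abs_mul_le1 (abs_int_le ν _ 1 fun r => hbd c (r, r')) (hs1 c r')
  · have h1 := hT (fun r => h (r, r')) (hh.comp measurable_prodMk_right) (fun r => hh1 _)
    refine squeeze_zero_norm (fun c => ?_) (by simpa using h1.abs)
    rw [Real.norm_eq_abs, abs_mul]
    exact mul_le_of_le_one_right (abs_nonneg _) (hs1 c r')

theorem t2 : P2.{u} := by
  intro L R _ _ μ ν _ _ κ κ' ξ α η β ψ hκ hκ' hκ1 hκ'1 hξ hη hξ1 hη1 hα hβ hψ hchsh hL hR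
  classical
  -- the indicator
  set F : L × R → ℝ := ψ.indicator (fun _ => (1 : ℝ)) with hF
  have hFm : Measurable F := measurable_const.indicator hψ
  have hF01 : ∀ p, F p = 0 ∨ F p = 1 := by
    intro p
    by_cases hp : p ∈ ψ
    · right; simp [hF, hp]
    · left; simp [hF, hp]
  have hF1 : ∀ p, |F p| ≤ 1 := by
    intro p
    rcases hF01 p with h | h <;> simp [h]
  have hF0 : ∀ p, 0 ≤ F p := by
    intro p
    rcases hF01 p with h | h <;> simp [h]
  have hFψ : ∀ p, F p ≠ 0 → p ∈ ψ := by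
    intro p hp
    by_contra hn
    exact hp (by simp [hF, hn])
  -- the kernels
  set v : R × R → ℝ := fun q => ∫ l, F (l, q.1) * F (l, q.2) * κ l ∂μ with hv
  have hFF : Measurable (fun p : (R × R) × L => F (p.2, p.1.1) * F (p.2, p.1.2) * κ p.2) := by
    refine Measurable.mul (Measurable.mul ?_ ?_) (hκ.comp measurable_snd)
    · exact hFm.comp (measurable_snd.prodMk (measurable_fst.comp measurable_fst))
    · exact hFm.comp (measurable_snd.prodMk (measurable_snd.comp measurable_fst))
  have hFFb : ∀ (q : R × R) (l : L), |F (l, q.1) * F (l, q.2) * κ l| ≤ 1 := fun q l =>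
    abs_mul_le1 (abs_mul_le1 (hF1 _) (hF1 _)) (abs_unit (hκ1 l))
  have hvm : Measurable v := by
    have hsm : StronglyMeasurable (Function.uncurry
        (fun (q : R × R) (l : L) => F (l, q.1) * F (l, q.2) * κ l)) :=
      hFF.stronglyMeasurable
    exact hsm.integral_prod_right.measurable
  have hv1 : ∀ q, |v q| ≤ 1 := fun q => abs_int_le μ _ 1 (hFFb q)
  have hv0 : ∀ q, 0 ≤ v q := fun q => integral_nonneg fun l =>
    mul_nonneg (mul_nonneg (hF0 _) (hF0 _)) (hκ1 l).1
  have hvs : ∀ q : R × R, v q.swap = v q := by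
    intro q
    simp only [hv, Prod.fst_swap, Prod.snd_swap]
    refine integral_congr_ae (Eventually.of_forall fun l => ?_)
    simp only
    ring
  -- the comparison
  have hu : ∀ q : R × R, Tendsto (fun c => ∫ l, F (l, q.1) * F (l, q.2) * κ l * ξ c l ∂μ)
      atTop (𝓝 0) := by
    intro q
    refine hL (fun l => F (l, q.1) * F (l, q.2)) ?_ ?_
    · exact (hFm.comp measurable_prodMk_right).mul (hFm.comp measurable_prodMk_right)
    · intro l; exact abs_mul_le1 (hF1 _) (hF1 _)
  have hcmp : ∀ c (q : R × R), |v q * ((1 + η c q.1) * (1 - η c q.2))| ≤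
      4 * |∫ l, F (l, q.1) * F (l, q.2) * κ l * ξ c l ∂μ| := by
    intro c q
    rcases hη1 c q.1 with h1 | h1
    · rcases hη1 c q.2 with h2 | h2
      · rw [h2]; simp
      · -- main case
        have hpt : ∀ l, F (l, q.1) * F (l, q.2) * κ l * ξ c l =
            (β c q.1 * β c q.2) * (F (l, q.1) * F (l, q.2) * κ l) := by
          intro l
          by_cases ha : F (l, q.1) = 0
          · rw [ha]; ring
          by_cases hb : F (l, q.2) = 0
          · rw [hb]; ring
          have e1 := hchsh c l q.1 (hFψ _ ha)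
          have e2 := hchsh c l q.2 (hFψ _ hb)
          rw [h1] at e1
          rw [h2] at e2
          have e3 : ξ c l = β c q.1 * β c q.2 := by
            have ha2 : α c l * α c l = 1 := by
              rcases hα c l with h | h <;> rw [h] <;> norm_num
            have e4 : (α c l * β c q.1) * (α c l * β c q.2) = ξ c l := by
              rw [e1, e2]; unfold chsh; ring
            calc ξ c l = (α c l * α c l) * (β c q.1 * β c q.2) := by rw [← e4]; ring
              _ = β c q.1 * β c q.2 := by rw [ha2]; ring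
          rw [e3]; ring
        have e5 : ∫ l, F (l, q.1) * F (l, q.2) * κ l * ξ c l ∂μ = (β c q.1 * β c q.2) * v q := by
          rw [hv]
          simp only
          rw [← integral_const_mul]
          exact integral_congr_ae (Eventually.of_forall hpt)
        rw [e5, h1, h2]
        have e6 : |β c q.1 * β c q.2| = 1 := by
          rcases hβ c q.1 with h | h <;> rcases hβ c q.2 with h' | h' <;> rw [h, h'] <;> norm_num
        rw [abs_mul, abs_mul (β c q.1 * β c q.2), e6]
        norm_num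
        linarith [abs_nonneg (v q)]
    · rw [h1]; simp
  -- the big integral tends to zero
  set k2 : R × R → ℝ := fun q => κ' q.1 * κ' q.2 with hk2
  have hk2m : Measurable k2 := (hκ'.comp measurable_fst).mul (hκ'.comp measurable_snd)
  have hk21 : ∀ q, |k2 q| ≤ 1 := fun q => abs_mul_le1 (abs_unit (hκ'1 _)) (abs_unit (hκ'1 _))
  have hI : Tendsto (fun c => ∫ q, k2 q * (v q * ((1 + η c q.1) * (1 - η c q.2))) ∂(ν.prod ν))
      atTop (𝓝 0) := by
    refine dct2 _ _ 4 (fun c => ?_) (fun c q => ?_) (fun q => ?_)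
    · refine hk2m.mul (hvm.mul ?_)
      exact (measurable_const.add ((hη c).comp measurable_fst)).mul
        (measurable_const.sub ((hη c).comp measurable_snd))
    · have h1 : |(1 + η c q.1) * (1 - η c q.2)| ≤ 4 := by
        rcases hη1 c q.1 with h | h <;> rcases hη1 c q.2 with h' | h' <;> rw [h, h'] <;> norm_num
      have h2 := hk21 q
      have h3 := hv1 q
      have h4 : |v q * ((1 + η c q.1) * (1 - η c q.2))| ≤ 4 := by
        rw [abs_mul]
        nlinarith [abs_nonneg (v q), abs_nonneg ((1 + η c q.1) * (1 - η c q.2))]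
      have h5 : 0 ≤ |v q * ((1 + η c q.1) * (1 - η c q.2))| := abs_nonneg _
      have h6 := abs_nonneg (k2 q)
      calc |k2 q * (v q * ((1 + η c q.1) * (1 - η c q.2)))|
          = |k2 q| * |v q * ((1 + η c q.1) * (1 - η c q.2))| := abs_mul _ _
        _ ≤ 4 := by nlinarith
    · have h1 := ((hu q).abs.const_mul 4)
      simp only [abs_zero, mul_zero] at h1
      refine squeeze_zero_norm (fun c => ?_) h1
      rw [Real.norm_eq_abs, abs_mul]
      have h2 := hcmp c q
      have h3 := hk21 q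
      have h4 := abs_nonneg (v q * ((1 + η c q.1) * (1 - η c q.2)))
      nlinarith [abs_nonneg (k2 q)]
  -- the three error terms
  have hA := tlem ν κ' η hκ' hκ'1 hη hη1 hR v hvm hv1 (fun _ => κ') (fun _ => hκ')
    (fun _ r => abs_unit (hκ'1 r))
  have hD := tlem ν κ' η hκ' hκ'1 hη hη1 hR v hvm hv1 (fun c r => κ' r * η c r)
    (fun c => hκ'.mul (hη c)) (fun c r => abs_mul_le1 (abs_unit (hκ'1 r)) (abs_sign (hη1 c r)))
  have hAm : ∀ c, Integrable (fun q : R × R => v q * κ' q.1 * η c q.1 * κ' q.2) (ν.prod ν) := by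
    intro c
    refine int_bdd _ _ 1 ?_ ?_
    · exact ((hvm.mul (hκ'.comp measurable_fst)).mul ((hη c).comp measurable_fst)).mul
        (hκ'.comp measurable_snd)
    · intro q
      exact abs_mul_le1 (abs_mul_le1 (abs_mul_le1 (hv1 _) (abs_unit (hκ'1 _)))
        (abs_sign (hη1 _ _))) (abs_unit (hκ'1 _))
  have hDm : ∀ c, Integrable (fun q : R × R => v q * κ' q.1 * η c q.1 * (κ' q.2 * η c q.2))
      (ν.prod ν) := by
    intro c
    refine int_bdd _ _ 1 ?_ ?_
    · exact ((hvm.mul (hκ'.comp measurable_fst)).mul ((hη c).comp measurable_fst)).mul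
        ((hκ'.comp measurable_snd).mul ((hη c).comp measurable_snd))
    · intro q
      exact abs_mul_le1 (abs_mul_le1 (abs_mul_le1 (hv1 _) (abs_unit (hκ'1 _)))
        (abs_sign (hη1 _ _))) (abs_mul_le1 (abs_unit (hκ'1 _)) (abs_sign (hη1 _ _)))
  have hBm : ∀ c, Integrable (fun q : R × R => v q * κ' q.2 * η c q.2 * κ' q.1) (ν.prod ν) := by
    intro c
    refine int_bdd _ _ 1 ?_ ?_
    · exact ((hvm.mul (hκ'.comp measurable_snd)).mul ((hη c).comp measurable_snd)).mul
        (hκ'.comp measurable_fst)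
    · intro q
      exact abs_mul_le1 (abs_mul_le1 (abs_mul_le1 (hv1 _) (abs_unit (hκ'1 _)))
        (abs_sign (hη1 _ _))) (abs_unit (hκ'1 _))
  have hBA : ∀ c, ∫ q, v q * κ' q.2 * η c q.2 * κ' q.1 ∂(ν.prod ν) =
      ∫ q, v q * κ' q.1 * η c q.1 * κ' q.2 ∂(ν.prod ν) := by
    intro c
    rw [← integral_prod_swap]
    refine integral_congr_ae (Eventually.of_forall fun q => ?_)
    simp only [Prod.fst_swap, Prod.snd_swap, hvs]
  have hVm : Integrable (fun q : R × R => k2 q * v q) (ν.prod ν) :=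
    int_bdd _ _ 1 (hk2m.mul hvm) (fun q => abs_mul_le1 (hk21 q) (hv1 q))
  have hexp : ∀ c, ∫ q, k2 q * (v q * ((1 + η c q.1) * (1 - η c q.2))) ∂(ν.prod ν) =
      (∫ q, k2 q * v q ∂(ν.prod ν)) + (∫ q, v q * κ' q.1 * η c q.1 * κ' q.2 ∂(ν.prod ν))
        - (∫ q, v q * κ' q.2 * η c q.2 * κ' q.1 ∂(ν.prod ν))
        - (∫ q, v q * κ' q.1 * η c q.1 * (κ' q.2 * η c q.2) ∂(ν.prod ν)) := by
    intro c
    have h1 := integral_add hVm (hAm c)
    have h2 := integral_sub (hVm.add (hAm c)) (hBm c)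
    have h3 := integral_sub ((hVm.add (hAm c)).sub (hBm c)) (hDm c)
    simp only [Pi.add_apply, Pi.sub_apply] at h1 h2 h3
    rw [← h1, ← h2, ← h3]
    refine integral_congr_ae (Eventually.of_forall fun q => ?_)
    simp only [hk2]
    ring
  have hV : ∫ q, k2 q * v q ∂(ν.prod ν) = 0 := by
    have h1 : Tendsto (fun c => ∫ q, k2 q * (v q * ((1 + η c q.1) * (1 - η c q.2))) ∂(ν.prod ν))
        atTop (𝓝 (∫ q, k2 q * v q ∂(ν.prod ν))) := by
      simp only [hexp, hBA]
      have h2 := hD.const_sub (∫ q, k2 q * v q ∂(ν.prod ν))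
      simp only [sub_zero] at h2
      refine h2.congr fun c => ?_
      ring
    exact tendsto_nhds_unique h1 hI
  -- Fubini
  set g : L → ℝ := fun l => ∫ r, F (l, r) * κ' r ∂ν with hg
  have hgm : Measurable g := by
    have hsm : StronglyMeasurable (Function.uncurry
        (fun (l : L) (r : R) => F (l, r) * κ' r)) := by
      apply Measurable.stronglyMeasurable
      exact hFm.mul (hκ'.comp measurable_snd)
    exact hsm.integral_prod_right.measurable
  have hg1 : ∀ l, |g l| ≤ 1 := fun l => abs_int_le ν _ 1 fun r =>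
    abs_mul_le1 (hF1 _) (abs_unit (hκ'1 _))
  have hVg : ∫ q, k2 q * v q ∂(ν.prod ν) = ∫ l, κ l * (g l * g l) ∂μ := by
    have h1 : ∫ q, k2 q * v q ∂(ν.prod ν) =
        ∫ q, ∫ l, k2 q * (F (l, q.1) * F (l, q.2) * κ l) ∂μ ∂(ν.prod ν) := by
      refine integral_congr_ae (Eventually.of_forall fun q => ?_)
      simp only [hv]
      rw [integral_const_mul]
    rw [h1, integral_integral_swap]
    · refine integral_congr_ae (Eventually.of_forall fun l => ?_)
      simp only [hk2]
      have h2 := integral_prod_mul (μ := ν) (ν := ν) (fun r => F (l, r) * κ' r)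
        (fun r => F (l, r) * κ' r)
      have h3 : ∫ q : R × R, κ' q.1 * κ' q.2 * (F (l, q.1) * F (l, q.2) * κ l) ∂(ν.prod ν) =
          κ l * ∫ q : R × R, (F (l, q.1) * κ' q.1) * (F (l, q.2) * κ' q.2) ∂(ν.prod ν) := by
        rw [← integral_const_mul]
        refine integral_congr_ae (Eventually.of_forall fun q => ?_)
        simp only
        ring
      rw [h3, h2]
    · refine int_bdd _ _ 1 ?_ ?_
      · exact (hk2m.comp measurable_fst).mul hFF
      · rintro ⟨q, l⟩
        exact abs_mul_le1 (hk21 q) (hFFb q l)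
  have hκg2 : ∀ᵐ l ∂μ, κ l * (g l * g l) = 0 := by
    have h1 : ∫ l, κ l * (g l * g l) ∂μ = 0 := by rw [← hVg, hV]
    rw [integral_eq_zero_iff_of_nonneg] at h1
    · exact h1
    · intro l
      exact mul_nonneg (hκ1 l).1 (mul_self_nonneg _)
    · exact int_bdd _ _ 1 (hκ.mul (hgm.mul hgm))
        (fun l => abs_mul_le1 (abs_unit (hκ1 l)) (abs_mul_le1 (hg1 l) (hg1 l)))
  have hκg : ∫ l, κ l * g l ∂μ = 0 := by
    have h1 : (fun l => κ l * g l) =ᵐ[μ] (fun _ => (0 : ℝ)) := by
      filter_upwards [hκg2] with l hl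
      rcases mul_eq_zero.1 hl with h | h
      · rw [h, zero_mul]
      · rw [mul_self_eq_zero.1 h, mul_zero]
    rw [integral_congr_ae h1, integral_zero]
  have hfin : ∫ q : L × R, F q * (κ q.1 * κ' q.2) ∂(μ.prod ν) = 0 := by
    rw [integral_prod]
    · rw [← hκg]
      refine integral_congr_ae (Eventually.of_forall fun l => ?_)
      simp only [hg]
      rw [← integral_const_mul]
      refine integral_congr_ae (Eventually.of_forall fun r => ?_)
      simp only
      ring
    · exact int_bdd _ _ 1 (hFm.mul ((hκ.comp measurable_fst).mul (hκ'.comp measurable_snd)))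
        (fun q => abs_mul_le1 (hF1 q) (abs_mul_le1 (abs_unit (hκ1 _)) (abs_unit (hκ'1 _))))
  rw [integral_eq_zero_iff_of_nonneg] at hfin
  · filter_upwards [hfin] with q hq hqψ
    have h1 : F q = 1 := by simp [hF, hqψ]
    simp only [h1, one_mul, Pi.zero_apply] at hq
    exact hq
  · intro q
    exact mul_nonneg (hF0 q) (mul_nonneg (hκ1 _).1 (hκ'1 _).1)
  · exact int_bdd _ _ 1 (hFm.mul ((hκ.comp measurable_fst).mul (hκ'.comp measurable_snd)))
      (fun q => abs_mul_le1 (hF1 q) (abs_mul_le1 (abs_unit (hκ1 _)) (abs_unit (hκ'1 _))))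

end Pool.Agent.W371.FD
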