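import Pool.Agent.W759.FD.Defs

namespace Pool.Agent.W371.FD

open MeasureTheory ProbabilityTheory Set Filter
open Pool.Agent.W759.FD

theorem gen7 {ι H : Type} (W : ι → MeasurableSpace H) :
    (⨆ k, (W k).comap (fun ω : ι → H => ω k)) = MeasurableSpace.generateFrom
      (piiUnionInter (fun k => {s | MeasurableSet[(W k).comap (fun ω : ι → H => ω k)] s})
        (Set.univ : Set ι)) := by
  have h := generateFrom_piiUnionInter_measurableSet
    (fun k => (W k).comap (fun ω : ι → H => ω k)) (Set.univ : Set ι)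
  rw [h]
  simp

theorem box7 {ι H : Type} [DecidableEq ι] (W : ι → MeasurableSpace H) (P : Set (ι → H))
    (hP : P ∈ piiUnionInter
      (fun k => {s | MeasurableSet[(W k).comap (fun ω : ι → H => ω k)] s}) (Set.univ : Set ι)) :
    ∃ s : Finset ι, ∃ g : ι → Set H, (∀ k, MeasurableSet[W k] (g k)) ∧ (∀ k, k ∉ s → g k = univ) ∧
      ∀ r : Finset ι, s ⊆ r → P = Set.pi (r : Set ι) g := by
  classical
  obtain ⟨s, -, f, hf, rfl⟩ := hP
  have h1 : ∀ k : ι, ∃ A : Set H, MeasurableSet[W k] A ∧
      (k ∈ s → (fun ω : ι → H => ω k) ⁻¹' A = f k) ∧ (k ∉ s → A = univ) := by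
    intro k
    by_cases hk : k ∈ s
    · obtain ⟨A, hA, hAf⟩ := hf k hk
      exact ⟨A, hA, fun _ => hAf, fun h => absurd hk h⟩
    · exact ⟨univ, @MeasurableSet.univ _ (W k), fun h => absurd h hk, fun _ => rfl⟩
  choose g hg hgf hgu using h1
  refine ⟨s, g, hg, hgu, fun r hr => ?_⟩
  ext ω
  simp only [mem_iInter, Set.mem_pi, Finset.mem_coe]
  constructor
  · intro h k _
    by_cases hk : k ∈ s
    · have := h k hk
      rw [← hgf k hk] at this
      exact this
    · rw [hgu k hk]; exact mem_univ _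
  · intro h k hk
    rw [← hgf k hk]
    exact h k (hr hk)

theorem t7 : P7 := by
  classical
  intro ι H mH μ inst U V hU hV hI
  have hle : ∀ W : ι → MeasurableSpace H, (∀ k, W k ≤ mH) →
      (⨆ k, (W k).comap (fun ω : ι → H => ω k)) ≤ MeasurableSpace.pi := by
    intro W hW
    refine iSup_le fun k => ?_
    refine (MeasurableSpace.comap_mono (hW k)).trans ?_
    exact (measurable_pi_apply k).comap_le
  have hpi : ∀ W : ι → MeasurableSpace H, IsPiSystem (piiUnionInter
      (fun k => {s | MeasurableSet[(W k).comap (fun ω : ι → H => ω k)] s})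
        (Set.univ : Set ι)) := by
    intro W
    refine isPiSystem_piiUnionInter _ (fun k => ?_) _
    exact @MeasurableSpace.isPiSystem_measurableSet _ ((W k).comap (fun ω : ι → H => ω k))
  refine IndepSets.indep (hle U hU) (hle V hV) (hpi U) (hpi V) (gen7 U) (gen7 V) ?_
  rw [IndepSets_iff]
  intro P Q hP hQ
  obtain ⟨s, f, hf, hfu, hPs⟩ := box7 U P hP
  obtain ⟨t, g, hg, hgu, hQt⟩ := box7 V Q hQ
  have e1 := hPs (s ∪ t) Finset.subset_union_left
  have e2 := hQt (s ∪ t) Finset.subset_union_right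
  have e3 : P ∩ Q = Set.pi ((s ∪ t : Finset ι) : Set ι) (fun k => f k ∩ g k) := by
    rw [e1, e2, ← Set.pi_inter_distrib]
  rw [e3, e1, e2, Measure.infinitePi_pi _ (fun k _ => hU k _ (hf k)),
    Measure.infinitePi_pi _ (fun k _ => hV k _ (hg k)),
    Measure.infinitePi_pi _ (fun k _ => (hU k _ (hf k)).inter (hV k _ (hg k))),
    ← Finset.prod_mul_distrib]
  refine Finset.prod_congr rfl fun k _ => ?_
  exact (Indep_iff _ _ _).1 (hI k) _ _ (hf k) (hg k)

end Pool.Agent.W371.FD
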