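import Pool.Agent.W759.FD.Defs

namespace Pool.Agent.W371.FD

open MeasureTheory ProbabilityTheory Set Filter
open Pool.Agent.W759.FD

theorem measurable_blk9 (m k : ℕ) : Measurable (blk m k) := by
  unfold blk
  refine Finset.measurable_prod _ fun j _ => ?_
  exact (measurable_of_countable sg).comp (measurable_pi_apply j)

theorem measurableSet_hs9 (m : ℕ) : MeasurableSet (hs m) := by
  unfold hs chsh
  refine measurableSet_eq_fun ((measurable_blk9 m 1).mul (measurable_blk9 m 2)) ?_
  have h0 := measurable_blk9 m 0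
  have h3 := measurable_blk9 m 3
  fun_prop

theorem measurable_X9 : Measurable X := by
  unfold X
  refine measurable_pi_lambda _ fun a => measurable_pi_lambda _ fun q => ?_
  exact (measurable_pi_apply q.2).comp (measurable_pi_apply _)

theorem measurable_rd9 (n c : ℕ) : Measurable (rd n c) := by
  unfold rd
  refine measurable_pi_lambda _ fun j => ?_
  exact (measurable_pi_apply (((n, c), j) : (ℕ × ℕ) × ℕ)).comp (measurable_pi_apply (j : ℤ))

theorem rd_X9 (n c : ℕ) (ω : K → ℕ → Bool) : rd n c (X ω) = ω ((n, c), 0) := by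
  funext j
  simp [rd, X]

theorem t9a : P9a := by
  intro h6a h6b n c
  have hpr : ∀ k : K, IsProbabilityMeasure (house (k.1.1 + 1)) := fun k => h6a _ (Nat.succ_pos _)
  have hm : MeasurableSet {x : ℤ → S0 | rd n c x ∈ hs (n + 1)} :=
    measurable_rd9 n c (measurableSet_hs9 (n + 1))
  unfold muX
  rw [ae_map_iff measurable_X9.aemeasurable hm]
  have h1 : MeasurePreserving (Function.eval (((n, c), 0) : K)) PW (house (n + 1)) :=
    measurePreserving_eval_infinitePi (fun k : K => house (k.1.1 + 1)) ((n, c), 0)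
  have h2 := h1.quasiMeasurePreserving.ae (h6b (n + 1) (Nat.succ_pos _))
  filter_upwards [h2] with ω hω
  rw [rd_X9]
  exact hω

theorem aux9 (h6a : P6a) (n c c' b : ℕ) (hcc : c ≠ c')
    (hb : ∫ h, blk (n + 1) b h ∂(house (n + 1)) = 0) :
    ∫ x, blk (n + 1) b (rd n c x) * blk (n + 1) b (rd n c' x) ∂muX = 0 := by
  have hpr : ∀ k : K, IsProbabilityMeasure (house (k.1.1 + 1)) := fun k => h6a _ (Nat.succ_pos _)
  have hpn : IsProbabilityMeasure (house (n + 1)) := h6a _ (Nat.succ_pos _)
  have hmb := measurable_blk9 (n + 1) b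
  have hf : Measurable (fun x : ℤ → S0 => blk (n + 1) b (rd n c x) * blk (n + 1) b (rd n c' x)) :=
    (hmb.comp (measurable_rd9 n c)).mul (hmb.comp (measurable_rd9 n c'))
  unfold muX
  rw [integral_map measurable_X9.aemeasurable hf.aestronglyMeasurable]
  simp only [rd_X9]
  have hne : (((n, c), 0) : K) ≠ (((n, c'), 0) : K) := by
    intro h
    simp at h
    exact hcc h
  have h1 := Measure.infinitePi_map_eval_prod (P := fun k : K => house (k.1.1 + 1)) hne
  have h2 : ∫ ω, blk (n + 1) b (ω ((n, c), 0)) * blk (n + 1) b (ω ((n, c'), 0)) ∂PW =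
      ∫ p : (ℕ → Bool) × (ℕ → Bool), blk (n + 1) b p.1 * blk (n + 1) b p.2
        ∂(PW.map (fun ω : K → ℕ → Bool => (ω ((n, c), 0), ω ((n, c'), 0)))) := by
    rw [integral_map]
    · exact ((measurable_pi_apply _).prodMk (measurable_pi_apply _)).aemeasurable
    · exact ((hmb.comp measurable_fst).mul (hmb.comp measurable_snd)).aestronglyMeasurable
  rw [h2]
  have h3 : PW.map (fun ω : K → ℕ → Bool => (ω ((n, c), 0), ω ((n, c'), 0))) =
      (house (n + 1)).prod (house (n + 1)) := h1
  rw [h3, integral_prod_mul (fun h => blk (n + 1) b h) (fun h => blk (n + 1) b h), hb, zero_mul]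

theorem t9b : P9b := by
  intro h6a h6d n c c' hcc
  have h := h6d (n + 1) (Nat.succ_pos _)
  exact ⟨aux9 h6a n c c' 0 hcc h.1, aux9 h6a n c c' 3 hcc h.2⟩

end Pool.Agent.W371.FD
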